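import Pool.Agent.QL.ALL

/-!
# Quasiconformal images of null families of parallel lines

A set `S` of real numbers is Lebesgue null if and only if some quasiconformal map `f` of the plane
takes the union `S × ℝ` of the vertical lines over `S` to a set which contains no rectifiable curve.
In this case `f` can be chosen as close as one likes to a conformal map and to the identity, and
`f (S × ℝ)` is even purely unrectifiable.
-/

open MeasureTheory Set Filter Topology
open scoped ENNReal NNReal

namespace Pool.Agent.Results.MP_410ea2_an.NullFamilies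

/-- The union of the vertical lines over `S`. -/
def Lines (S : Set ℝ) : Set ℂ := {z : ℂ | z.re ∈ S}

/-- The metric definition of quasiconformality: the linear dilatations at the points `x` (for the
radii less than some `δ > 0`, which may depend on `x`) are bounded by one constant `H`. -/
def Quasiconformal (f : ℂ ≃ₜ ℂ) : Prop :=
  ∃ H : ℝ, ∀ x : ℂ, ∃ δ > (0 : ℝ), ∀ y z : ℂ, dist y x = dist z x → dist y x < δ →
    dist (f y) (f x) ≤ H * dist (f z) (f x)

/-- `f` is weakly `H`-quasisymmetric: the linear dilatations at all points and for all radii are at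
most `H`. -/
def WeaklyQuasisymmetric (H : ℝ) (f : ℂ ≃ₜ ℂ) : Prop :=
  ∀ x y z : ℂ, dist y x ≤ dist z x → dist (f y) (f x) ≤ H * dist (f z) (f x)

/-- `A` contains no rectifiable curve: every continuous curve of finite length in `A` is constant. -/
def NoRectifiableCurve (A : Set ℂ) : Prop :=
  ∀ γ : ℝ → ℂ, ContinuousOn γ (Icc 0 1) → BoundedVariationOn γ (Icc 0 1) →
    (∀ t ∈ Icc (0 : ℝ) 1, γ t ∈ A) → ∀ s ∈ Icc (0 : ℝ) 1, ∀ t ∈ Icc (0 : ℝ) 1, γ s = γ t

/-- `A` is purely `1`-unrectifiable: it meets every Lipschitz curve in a set of length zero. -/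
def PurelyUnrectifiable (A : Set ℂ) : Prop :=
  ∀ (C : ℝ≥0) (γ : ℝ → ℂ), LipschitzWith C γ →
    Measure.hausdorffMeasure 1 (range γ ∩ A) = 0

/-- For a set `S` of real numbers the following are equivalent: `S` has Lebesgue measure zero; there
is a quasiconformal map `f` of the plane such that `f (S × ℝ)` contains no rectifiable curve; for all
`H > 1` and `ε > 0` there is a weakly `H`-quasisymmetric homeomorphism `f` of the plane, moving no
point by more than `ε`, such that `f (S × ℝ)` is purely unrectifiable and contains no rectifiable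
curve. -/
theorem result (S : Set ℝ) :
    List.TFAE [
      volume S = 0,
      ∃ f : ℂ ≃ₜ ℂ, Quasiconformal f ∧ NoRectifiableCurve (f '' Lines S),
      ∀ H > (1 : ℝ), ∀ ε > (0 : ℝ), ∃ f : ℂ ≃ₜ ℂ, WeaklyQuasisymmetric H f ∧
        (∀ z, dist (f z) z ≤ ε) ∧ PurelyUnrectifiable (f '' Lines S) ∧
        NoRectifiableCurve (f '' Lines S)] := by
  have hM := Pool.Agent.QL.MAINU_full S
  tfae_have 1 → 3 := fun h => hM.1 h
  tfae_have 3 → 2 := by
    intro h
    obtain ⟨f, hf, -, -, hno⟩ := h 2 one_lt_two 1 one_pos
    exact ⟨f, ⟨2, fun x => ⟨1, one_pos, fun y z h1 _ => hf x y z h1.le⟩⟩, hno⟩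
  tfae_have 2 → 1 := by
    rintro ⟨f, hf, hno⟩
    by_contra h
    exact hM.2 h f hf hno
  tfae_finish

end Pool.Agent.Results.MP_410ea2_an.NullFamilies
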